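import Pool.Agent.Helper89.OC.St2

/-!
# Project OC, module KSS (helper7)

All orbits in `Kp X a` other than `Orb X w` are single points.
-/

set_option autoImplicit false

namespace Pool.Agent.Helper7.OC

open Pool.Agent.Helper94.YF Pool.Agent.Helper94.YG Pool.Agent.Helper89.OS
  Pool.Agent.Helper89.OC

theorem hKSS : StKSS := by
  intro hRB hIB hTS2 hORB hE3 hE2 hE4 I _ _ p _ X Q N a hG w hw hwg k hk hkw
  classical
  have hOB : OB X := hORB I p X
  have hR := hRB hIB hTS2 hORB hE3 hE2 hE4 I p X Q hG.blk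
  -- unfold membership
  have hKs : ∀ j, j ∈ Ks X ↔ X.y j ≠ 0 ∧ X.t j = 1 ∧ j ≠ X.o := by
    intro j
    simp only [Ks, Finset.mem_filter, Finset.mem_univ, true_and]
  have hKp : ∀ j, j ∈ Kp X a ↔ j ∈ Ks X ∧ j ∉ Orb X a := by
    intro j
    simp only [Kp, Finset.mem_filter]
  have hwK := ((hKp w).1 hw).1
  have hwa := ((hKp w).1 hw).2
  have hkK := ((hKp k).1 hk).1
  have hka := ((hKp k).1 hk).2
  have haK := hG.aK
  -- orbits are in Ks
  have hsub : ∀ b, b ∈ Ks X → ∀ j, j ∈ Orb X b → j ∈ Ks X := by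
    intro b hb j hj
    obtain ⟨h1, h2, h3⟩ := (hKs b).1 hb
    refine (hKs j).2 ⟨?_, hOB.t b j hj h2, ?_⟩
    · rw [hOB.y b j hj]; exact h1
    · intro hjo
      apply h3
      apply hOB.o b
      rw [← hjo]; exact hj
  have hpos : ∀ j, 1 ≤ (Orb X j).card := by
    intro j
    exact Finset.card_pos.2 ⟨j, hOB.self j⟩
  have hterm : ∀ j, (0 : ℝ) ≤ 1 - 1 / ((Orb X j).card : ℝ) := by
    intro j
    have h1 : (1 : ℝ) ≤ ((Orb X j).card : ℝ) := by exact_mod_cast hpos j
    have h2 : 1 / ((Orb X j).card : ℝ) ≤ 1 := by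
      rw [div_le_one (by linarith)]; exact h1
    linarith
  -- disjointness
  have hdis : Disjoint (Orb X a) (Orb X w) := by
    rw [Finset.disjoint_left]
    intro j hja hjw
    apply hwa
    rw [← hOB.eq a j hja, hOB.eq w j hjw]
    exact hOB.self w
  have hk1 : k ∉ Orb X a ∪ Orb X w := by
    rw [Finset.mem_union]
    rintro (h | h)
    · exact hka h
    · exact hkw h
  have hsubs : insert k (Orb X a ∪ Orb X w) ⊆ Ks X := by
    intro j hj
    rw [Finset.mem_insert, Finset.mem_union] at hj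
    rcases hj with h | h | h
    · rw [h]; exact hkK
    · exact hsub a haK j h
    · exact hsub w hwK j h
  have hle : ∑ j ∈ insert k (Orb X a ∪ Orb X w), (1 - 1 / ((Orb X j).card : ℝ)) ≤
      ∑ j ∈ Ks X, (1 - 1 / ((Orb X j).card : ℝ)) :=
    Finset.sum_le_sum_of_subset_of_nonneg hsubs (fun j _ _ => hterm j)
  rw [Finset.sum_insert hk1, Finset.sum_union hdis] at hle
  have hga : ((Orb X a).card : ℝ) = (gX X : ℝ) := by exact_mod_cast hG.aO
  have hgw : ((Orb X w).card : ℝ) = (gX X : ℝ) := by exact_mod_cast hwg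
  have hg1 : (1 : ℝ) ≤ (gX X : ℝ) := by
    rw [← hga]; exact_mod_cast hpos a
  have hsa : ∑ j ∈ Orb X a, (1 - 1 / ((Orb X j).card : ℝ)) = (gX X : ℝ) - 1 := by
    have h1 : ∀ j ∈ Orb X a, (1 - 1 / ((Orb X j).card : ℝ)) = 1 - 1 / (gX X : ℝ) := by
      intro j hj
      rw [hOB.eq a j hj, hga]
    rw [Finset.sum_congr rfl h1, Finset.sum_const, nsmul_eq_mul, hga]
    field_simp
  have hsw : ∑ j ∈ Orb X w, (1 - 1 / ((Orb X j).card : ℝ)) = (gX X : ℝ) - 1 := by
    have h1 : ∀ j ∈ Orb X w, (1 - 1 / ((Orb X j).card : ℝ)) = 1 - 1 / (gX X : ℝ) := by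
      intro j hj
      rw [hOB.eq w j hj, hgw]
    rw [Finset.sum_congr rfl h1, Finset.sum_const, nsmul_eq_mul, hgw]
    field_simp
  rw [hsa, hsw] at hle
  have hk2 : 1 - 1 / ((Orb X k).card : ℝ) ≤ 0 := by linarith
  by_contra hne
  have h2 : 2 ≤ (Orb X k).card := by
    have := hpos k
    omega
  have h3 : (2 : ℝ) ≤ ((Orb X k).card : ℝ) := by exact_mod_cast h2
  have h4 : 1 / ((Orb X k).card : ℝ) ≤ 1 / 2 := by
    apply one_div_le_one_div_of_le (by norm_num) h3
  linarith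

end Pool.Agent.Helper7.OC
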